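import Pool.Agent.R593.Cv.Pow

/-!
# Cones of sections of even objects
-/

set_option autoImplicit false
set_option linter.unusedSectionVars false
set_option backward.isDefEq.respectTransparency false
set_option backward.defeqAttrib.useBackward true

open CategoryTheory Limits MonoidalCategory Pretriangulated Triangulated TensorProduct
open Pool.Agent.R920 Pool.Agent.Y112.KD
open Pool.Agent.Y116.MT (TensorTriangulated pw un star starN star_comp exch exch_star
  starN_ne_zero rotD comp31 comp12)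

namespace Pool.Agent.R593.Cv

universe v u w

open Functor.LaxMonoidal

section

variable {C : Type u} [Category.{v} C] [Preadditive C] [HasZeroObject C] [HasShift C ℤ]
  [∀ n : ℤ, (shiftFunctor C n).Additive] [Pretriangulated C] [MonoidalCategory C]
  [SymmetricCategory C] {E : Type w} [Field E]

/-- The cohomology of `X` is concentrated in even degrees. -/
def IsEven (R : GReal C E) (X : C) : Prop := ∀ n : ℤ, Odd n → R.gr X n = ⊥

/-- The cohomology of `X` is concentrated in odd degrees. -/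
def IsOdd (R : GReal C E) (X : C) : Prop := ∀ n : ℤ, Even n → R.gr X n = ⊥

/-- The realisation is conservative: an object without cohomology is zero. -/
def Conservative (R : GReal C E) : Prop := ∀ X : C, (∀ n : ℤ, R.gr X n = ⊥) → IsZero X

variable {R : GReal C E}

lemma IsEven.braids {X : C} (h : IsEven R X) : Braids R 1 X := by
  intro x y
  rw [one_smul]
  refine hom_induction₂ R (p := fun x y => R.ap (β_ X X).hom (mul R.V x y) = mul R.V y x) x y
    ?_ ?_ ?_ ?_ ?_
  · intro i j x y hx hy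
    rw [R.ap_braid hx hy]
    rcases Int.even_or_odd i with hi | hi
    · rw [Int.negOnePow_even _ (hi.mul_right j), one_smul]
    · rw [h i hi, Submodule.mem_bot] at hx
      rw [hx, mul_zero', smul_zero]
  · intro y
    rw [zero_mul', map_zero, mul_zero']
  · intro x
    rw [mul_zero', map_zero, zero_mul']
  · intro x x' y h h'
    rw [add_mul', map_add, h, h', mul_add']
  · intro x y y' h h'
    rw [mul_add', map_add, h, h', add_mul']

lemma IsOdd.braids {X : C} (h : IsOdd R X) : Braids R (-1) X := by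
  intro x y
  refine hom_induction₂ R (p := fun x y => R.ap (β_ X X).hom (mul R.V x y) =
    (-1 : E) • mul R.V y x) x y ?_ ?_ ?_ ?_ ?_
  · intro i j x y hx hy
    rw [R.ap_braid hx hy]
    rcases Int.even_or_odd i with hi | hi
    · rw [h i hi, Submodule.mem_bot] at hx
      rw [hx, mul_zero', smul_zero, smul_zero]
    · rcases Int.even_or_odd j with hj | hj
      · rw [h j hj, Submodule.mem_bot] at hy
        rw [hy, zero_mul', smul_zero, smul_zero]
      · rw [Int.negOnePow_odd _ (hi.mul hj), Units.neg_smul, one_smul, neg_one_smul]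
  · intro y
    rw [zero_mul', map_zero, mul_zero', smul_zero]
  · intro x
    rw [mul_zero', map_zero, zero_mul', smul_zero]
  · intro x x' y h h'
    rw [add_mul', map_add, h, h', mul_add', smul_add]
  · intro x y y' h h'
    rw [mul_add', map_add, h, h', add_mul', smul_add]

lemma IsEven.retract {X Y : C} (i : Y ⟶ X) (r : X ⟶ Y) (h : i ≫ r = 𝟙 Y) (hX : IsEven R X) :
    IsEven R Y := fun n hn => R.bot_of_retract i r h (hX n hn)

lemma IsOdd.retract {X Y : C} (i : Y ⟶ X) (r : X ⟶ Y) (h : i ≫ r = 𝟙 Y) (hX : IsOdd R X) :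
    IsOdd R Y := fun n hn => R.bot_of_retract i r h (hX n hn)

/-- The cone of a homologically non-trivial section of an even object is even. -/
lemma cone_even {X Z : C} {s : 𝟙_ C ⟶ X} {p : X ⟶ Z} {δ : Z ⟶ (𝟙_ C)⟦(1 : ℤ)⟧}
    (hT : Triangle.mk s p δ ∈ distTriang C) (hX : IsEven R X) (hs : R.V.map s ≠ 0) :
    IsEven R Z := by
  intro n hn
  rw [eq_bot_iff]
  intro z hz
  have h1 : R.ap δ z = 0 := by
    have h2 : R.ap (s⟦(1 : ℤ)⟧') (R.ap δ z) = 0 := by
      rw [← GReal.ap_comp, comp31 hT, GReal.ap_zero]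
    have h3 := R.sh_natural s (R.ap δ z)
    change R.sh X (R.ap (s⟦(1 : ℤ)⟧') (R.ap δ z)) = _ at h3
    rw [h2, map_zero] at h3
    obtain ⟨c, hc⟩ := eq_smul_one R.V (R.sh (𝟙_ C) (R.ap δ z))
    rw [hc, map_smul] at h3
    have h4 : (R.V.map s).hom (one R.V) ≠ 0 := fun h => hs ((R.ap_unit_eq_zero s).2 h)
    rcases smul_eq_zero.1 h3.symm with h5 | h5
    · rw [h5, zero_smul] at hc
      exact (R.sh _).map_eq_zero_iff.1 hc
    · exact absurd h5 h4
  obtain ⟨x, hx, rfl⟩ := R.ex3 hT hz h1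
  rw [hX n hn, Submodule.mem_bot] at hx
  rw [hx, map_zero]
  exact Submodule.zero_mem _

/-- The dimension of the cohomology of the cone. -/
lemma cone_finrank {X Z : C} {s : 𝟙_ C ⟶ X} {p : X ⟶ Z} {δ : Z ⟶ (𝟙_ C)⟦(1 : ℤ)⟧}
    (hT : Triangle.mk s p δ ∈ distTriang C) (hs : R.V.map s ≠ 0) :
    Module.finrank E (R.V.obj Z) < Module.finrank E (R.V.obj X) := by
  have h1 : ∀ z : R.V.obj Z, ∃ x : R.V.obj X, R.ap p x = z := by
    intro z
    have h1 : R.ap δ z = 0 := by
      have h2 : R.ap (s⟦(1 : ℤ)⟧') (R.ap δ z) = 0 := by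
        rw [← GReal.ap_comp, comp31 hT, GReal.ap_zero]
      have h3 := R.sh_natural s (R.ap δ z)
      change R.sh X (R.ap (s⟦(1 : ℤ)⟧') (R.ap δ z)) = _ at h3
      rw [h2, map_zero] at h3
      obtain ⟨c, hc⟩ := eq_smul_one R.V (R.sh (𝟙_ C) (R.ap δ z))
      rw [hc, map_smul] at h3
      have h4 : (R.V.map s).hom (one R.V) ≠ 0 := fun h => hs ((R.ap_unit_eq_zero s).2 h)
      rcases smul_eq_zero.1 h3.symm with h5 | h5
      · rw [h5, zero_smul] at hc
        exact (R.sh _).map_eq_zero_iff.1 hc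
      · exact absurd h5 h4
    exact (R.exact _ (rotD hT) z).1 h1
  have h2 : Function.Surjective (R.ap p) := h1
  have h3 := LinearMap.finrank_range_add_finrank_ker (R.ap p)
  rw [LinearMap.range_eq_top.2 h2, finrank_top] at h3
  have h4 : 0 < Module.finrank E (LinearMap.ker (R.ap p)) := by
    rw [Module.finrank_pos_iff]
    refine ⟨⟨⟨R.ap s (one R.V), ?_⟩, 0, ?_⟩⟩
    · rw [LinearMap.mem_ker, ← GReal.ap_comp, comp12 hT, GReal.ap_zero]
    · intro h
      exact hs ((R.ap_unit_eq_zero s).2 (congrArg Subtype.val h))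
  omega

section

variable [Linear ℚ C] [MonoidalPreadditive C] [MonoidalLinear ℚ C] [CharZero E]

lemma IsEven.map_asym {X : C} (h : IsEven R X) (n : ℕ)
    (hn : Module.finrank E (R.V.obj X) < n) : R.V.map (asym (-1) X n) = 0 :=
  map_asym_zero (by norm_num) (by simpa using h.braids) n hn

lemma IsOdd.map_asym {X : C} (h : IsOdd R X) (n : ℕ)
    (hn : Module.finrank E (R.V.obj X) < n) : R.V.map (asym 1 X n) = 0 :=
  map_asym_zero (by norm_num) (by simpa using h.braids) n hn

/-- For a conservative realisation, idempotents with trivial realisation are zero. -/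
lemma Conservative.idem_zero (hc : Conservative R) {X : C} (e : X ⟶ X) (he : e ≫ e = e)
    (h0 : R.V.map e = 0) : e = 0 := by
  have h1 : ∀ x, R.ap (𝟙 X - e) x = x := fun x => by
    rw [GReal.ap_sub, GReal.ap_id, (R.map_eq_zero_iff e).1 h0, sub_zero]
  have h2 : IsIso (𝟙 X - e) := R.isIso_of_bij hc _ (fun n x _ hx => by rwa [h1] at hx)
    (fun n y hy => ⟨y, hy, h1 y⟩)
  rw [← cancel_epi (𝟙 X - e), comp_zero, Preadditive.sub_comp, Category.id_comp, he, sub_self]

lemma Conservative.even_asym (hc : Conservative R) {X : C} (h : IsEven R X) (n : ℕ)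
    (hn : Module.finrank E (R.V.obj X) < n) : asym (-1) X n = 0 :=
  hc.idem_zero _ (asym_idem (by norm_num) X n) (h.map_asym n hn)

lemma Conservative.odd_asym (hc : Conservative R) {X : C} (h : IsOdd R X) (n : ℕ)
    (hn : Module.finrank E (R.V.obj X) < n) : asym 1 X n = 0 :=
  hc.idem_zero _ (asym_idem (by norm_num) X n) (h.map_asym n hn)

end

end

section

variable {C : Type u} [Category.{v} C] [Preadditive C] [HasZeroObject C] [HasShift C ℤ]
  [∀ n : ℤ, (shiftFunctor C n).Additive] [Pretriangulated C] [MonoidalCategory C]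
  [SymmetricCategory C] [TensorTriangulated C] [MonoidalPreadditive C] [Linear ℚ C]
  [MonoidalLinear ℚ C]

/-- The comparison of the tensor powers. -/
def eP (Z : C) : ∀ n : ℕ, pw (𝟙_ C) Z n ≅ tp Z n
  | 0 => Iso.refl _
  | n + 1 => whiskerRightIso (eP Z n) Z

/-- The powers of the connecting morphism. -/
noncomputable def pS {Z : C} (δ : Z ⟶ (𝟙_ C)⟦(1 : ℤ)⟧) (n : ℕ) : tp Z n ⟶ un C n :=
  (eP Z n).inv ≫ starN δ (𝟙 (𝟙_ C)) n

lemma pS_succ {Z : C} (δ : Z ⟶ (𝟙_ C)⟦(1 : ℤ)⟧) (n : ℕ) : pS δ (n + 1) = star δ (pS δ n) := by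
  rw [pS, pS, star_comp]
  rfl

lemma swap_pS {Z : C} (δ : Z ⟶ (𝟙_ C)⟦(1 : ℤ)⟧) {n : ℕ} {s : tp Z n ⟶ tp Z n}
    (hs : IsSwap Z n s) : s ≫ pS δ n = (-1 : ℚ) • pS δ n := by
  rw [neg_one_smul]
  induction hs with
  | last n =>
    rw [pS_succ, pS_succ]
    exact exch_star δ (pS δ n)
  | lift n s hs ih =>
    rw [pS_succ, ← star_comp, ih, Pool.Agent.Y116.MT.star_neg]

/-- The exterior powers of the cone of a section which does not split are not zero. -/
theorem asym_cone_ne [RightRigidCategory C] {X Z : C} {s : 𝟙_ C ⟶ X} {p : X ⟶ Z} {δ : Z ⟶ (𝟙_ C)⟦(1 : ℤ)⟧}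
    (hT : Triangle.mk s p δ ∈ distTriang C) (Q : ObjectProperty C) (hQ : ∀ X', Q X' → Q (X' ⊗ X))
    (hQ0 : ∀ X', Q X' → ∀ (m : ℤ), 0 < m → ∀ f : X' ⟶ (𝟙_ C)⟦m⟧, f = 0) (hQu : Q (𝟙_ C))
    (hs : ∀ r : X ⟶ 𝟙_ C, s ≫ r = 0) (h1 : ¬ IsZero (𝟙_ C)) (n : ℕ) : asym (-1) Z n ≠ 0 := by
  intro h
  have h2 := starN_ne_zero δ s p hT Q hQ (fun X' hX' m f => Pool.Agent.Y116.MT.un_zero
    (hQ0 X' hX') m f) hQu hs h1 n
  have h3 : asym (-1) Z n ≫ pS δ n = pS δ n :=
    asym_comp (by norm_num) _ (fun t ht => swap_pS δ ht)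
  rw [h, zero_comp] at h3
  apply h2
  rw [← cancel_epi (eP Z n).inv, comp_zero]
  exact h3.symm

end

end Pool.Agent.R593.Cv
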