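import Pool.Agent.R593.Cv.Cone

/-!
# Geometric motives, Chow motives and weights: definitions
-/

set_option autoImplicit false
set_option linter.unusedSectionVars false
set_option backward.isDefEq.respectTransparency false
set_option backward.defeqAttrib.useBackward true

open CategoryTheory Limits MonoidalCategory Pretriangulated Triangulated TensorProduct
open Pool.Agent.R920
open Pool.Agent.R905 (IsKimuraFinite)

namespace Pool.Agent.R593.Cv

universe v u w

variable {C : Type u} [Category.{v} C] [Preadditive C] [HasZeroObject C] [HasShift C ℤ]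
  [∀ n : ℤ, (shiftFunctor C n).Additive] [Pretriangulated C] [MonoidalCategory C]
  [SymmetricCategory C] {E : Type w} [Field E]

/-- A weight filtration on the cohomology: an increasing filtration `W`, compatible with the
grading, functorial and strict for all morphisms. -/
structure WeightFil (R : GReal C E) where
  /-- the weight filtration -/
  W (X : C) (w : ℤ) : Submodule E (R.V.obj X)
  mono {X : C} {w w' : ℤ} : w ≤ w' → W X w ≤ W X w'
  map_le {X Y : C} (f : X ⟶ Y) (w : ℤ) : (W X w).map (R.ap f) ≤ W Y w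
  strict {X Y : C} (f : X ⟶ Y) (w : ℤ) : W Y w ⊓ LinearMap.range (R.ap f) ≤ (W X w).map (R.ap f)
  graded (X : C) (w : ℤ) : W X w ≤ ⨆ n, R.gr X n ⊓ W X w

/-- The Chow motives in a tensor triangulated category `C` (the category of geometric motives, with
rational coefficients) with the realisation `R`, and their standard properties: they form a class
`Chow` closed under retracts, tensor products, duals and sums, without positive extensions between
them (Voevodsky), which generates `C` as a triangulated category (Bondarko); and the cohomology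
carries a weight filtration `W`, for which `H^m(P⟦b⟧) = H^(m+b)(P)` is pure of weight `m + b` for
each Chow motive `P` (Deligne). -/
structure Weights [RightRigidCategory C] (R : GReal C E) extends WeightFil R where
  /-- the property of being a Chow motive -/
  Chow : ObjectProperty C
  retract {X Y : C} (i : Y ⟶ X) (r : X ⟶ Y) : i ≫ r = 𝟙 Y → Chow X → Chow Y
  unit : Chow (𝟙_ C)
  tensor {X Y : C} : Chow X → Chow Y → Chow (X ⊗ Y)
  dual {X : C} : Chow X → Chow (Xᘁ : C)
  sum {X Y : C} : Chow X → Chow Y → Chow (X ⊞ Y)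
  noExt {X Y : C} : Chow X → Chow Y → ∀ m : ℤ, 0 < m → ∀ f : X ⟶ Y⟦m⟧, f = 0
  generate (S : ObjectProperty C) : (∀ X Y : C, Nonempty (X ≅ Y) → S X → S Y) →
    (∀ X, S X → S (X⟦(1 : ℤ)⟧)) → (∀ X, S X → S (X⟦(-1 : ℤ)⟧)) →
    (∀ T : Triangle C, T ∈ distTriang C → S T.obj₁ → S T.obj₃ → S T.obj₂) →
    (∀ X, Chow X → S X) → ∀ X, S X
  pure_le {P : C} (b m : ℤ) : Chow P → R.gr (P⟦b⟧) m ≤ W (P⟦b⟧) (m + b)
  pure_lt {P : C} (b m : ℤ) : Chow P → R.gr (P⟦b⟧) m ⊓ W (P⟦b⟧) (m + b - 1) = ⊥

variable [RightRigidCategory C] {R : GReal C E} (M : Weights R)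

/-- `X` is the direct sum of an object with cohomology in even degrees and of an object with
cohomology in odd degrees. -/
def HasParity (R : GReal C E) (X : C) : Prop := ∃ (X₀ X₁ : C) (i₀ : X₀ ⟶ X) (r₀ : X ⟶ X₀)
  (i₁ : X₁ ⟶ X) (r₁ : X ⟶ X₁), i₀ ≫ r₀ = 𝟙 X₀ ∧ i₁ ≫ r₁ = 𝟙 X₁ ∧ r₀ ≫ i₀ + r₁ ≫ i₁ = 𝟙 X ∧
  IsEven R X₀ ∧ IsOdd R X₁

/-- The class `s` is not homologically trivial. -/
def HomNonzero (R : GReal C E) {X : C} (s : 𝟙_ C ⟶ X) : Prop := R.V.map s ≠ 0

/-- The class `s` is not numerically trivial: it has a non-zero intersection number with some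
class `r` of the dual. -/
def NumNonzero {X : C} (s : 𝟙_ C ⟶ X) : Prop := ∃ r : X ⟶ 𝟙_ C, s ≫ r ≠ 0

/-- Homological and numerical equivalence coincide for the classes of `X`. -/
def HomEqNum (R : GReal C E) (X : C) : Prop := ∀ s : 𝟙_ C ⟶ X, HomNonzero R s → NumNonzero s

/-- `Z` is a cone of the class `s`. -/
def IsConeOf {X : C} (s : 𝟙_ C ⟶ X) (Z : C) : Prop :=
  ∃ (p : X ⟶ Z) (δ : Z ⟶ (𝟙_ C)⟦(1 : ℤ)⟧), Triangle.mk s p δ ∈ distTriang C

/-- Each Chow motive is the direct sum of one with cohomology in even degrees and of one with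
cohomology in odd degrees. -/
def Weights.Parity : Prop := ∀ X : C, M.Chow X → HasParity R X

/-- Chow motives are finite-dimensional in the sense of Kimura. -/
def Weights.Kimura [Linear ℚ C] : Prop := ∀ X : C, M.Chow X → IsKimuraFinite X

/-- Homologically trivial endomorphisms of Chow motives are nilpotent. -/
def Weights.Nilpotence : Prop := ∀ X : C, M.Chow X → ∀ f : X ⟶ X, R.V.map f = 0 →
  IsNilpotent (End.of f)

/-- Homological and numerical equivalence coincide for the classes of Chow motives. -/
def Weights.HomNum : Prop := ∀ X : C, M.Chow X → HomEqNum R X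

/-- A morphism of Chow motives which is injective on cohomology splits. -/
def Weights.Splitting : Prop := ∀ X Y : C, M.Chow X → M.Chow Y → ∀ f : X ⟶ Y,
  Function.Injective (R.ap f) → ∃ g : Y ⟶ X, f ≫ g = 𝟙 X

section

variable {C : Type u} [Category.{v} C] [Preadditive C] [MonoidalCategory C] [SymmetricCategory C]
  [Linear ℚ C]

/-- Some exterior power of `X` is zero. -/
def EvenlyFinite (X : C) : Prop := ∃ n, Pool.Agent.Y112.KD.asym (-1) X n = 0

end

end Pool.Agent.R593.Cv
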