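import Pool.Agent.R593.Cv.Wt

/-!
# Exterior powers of cones, and the equivalences
-/

set_option autoImplicit false
set_option linter.unusedSectionVars false
set_option backward.isDefEq.respectTransparency false
set_option backward.defeqAttrib.useBackward true

open CategoryTheory Limits MonoidalCategory Pretriangulated Triangulated TensorProduct
open Pool.Agent.R920 Pool.Agent.Y112.KD Pool.Agent.R905
open Pool.Agent.Y116.MT (TensorTriangulated comp31 split3')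

namespace Pool.Agent.R593.Cv

universe v u w

variable {C : Type u} [Category.{v} C] [Preadditive C] [HasZeroObject C] [HasShift C ℤ]
  [∀ n : ℤ, (shiftFunctor C n).Additive] [Pretriangulated C]
  [MonoidalCategory C] [SymmetricCategory C] [TensorTriangulated C] [MonoidalPreadditive C]
  [RightRigidCategory C] [Linear ℚ C] [MonoidalLinear ℚ C]
  {E : Type w} [Field E] [CharZero E] {R : GReal C E} (M : Weights R)

/-- The exterior powers of the cone of a section of an even object. -/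
lemma cone_asym_map {X Z : C} {s : 𝟙_ C ⟶ X} {p : X ⟶ Z} {δ : Z ⟶ (𝟙_ C)⟦(1 : ℤ)⟧}
    (hT : Triangle.mk s p δ ∈ distTriang C) (hX : IsEven R X) (hs : R.V.map s ≠ 0) (n : ℕ)
    (hn : Module.finrank E (R.V.obj X) ≤ n) : R.V.map (asym (-1) Z n) = 0 :=
  (cone_even hT hX hs).map_asym n (lt_of_lt_of_le (cone_finrank hT hs) hn)

lemma retract_of_split {X Z : C} {s : 𝟙_ C ⟶ X} {p : X ⟶ Z} {δ : Z ⟶ (𝟙_ C)⟦(1 : ℤ)⟧}
    (hT : Triangle.mk s p δ ∈ distTriang C)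
    (hE : ∀ e : 𝟙_ C ⟶ 𝟙_ C, ∃ q : ℚ, e = q • 𝟙 (𝟙_ C)) (r : X ⟶ 𝟙_ C) (hr : s ≫ r ≠ 0) :
    ∃ t : Z ⟶ X, t ≫ p = 𝟙 Z := by
  obtain ⟨q, hq⟩ := hE (s ≫ r)
  have hq0 : q ≠ 0 := by
    rintro rfl
    rw [zero_smul] at hq
    exact hr hq
  have h1 : s ≫ (q⁻¹ • r) = 𝟙 _ := by
    rw [Linear.comp_smul, hq, smul_smul, inv_mul_cancel₀ hq0, one_smul]
  apply split3' hT
  have h2 : δ ≫ s⟦(1 : ℤ)⟧' = 0 := comp31 hT
  calc δ = δ ≫ (s ≫ (q⁻¹ • r))⟦(1 : ℤ)⟧' := by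
        rw [h1, CategoryTheory.Functor.map_id, Category.comp_id]
    _ = 0 := by rw [CategoryTheory.Functor.map_comp, reassoc_of% h2, zero_comp]

lemma asym_of_retract {X Z : C} (t : Z ⟶ X) (p : X ⟶ Z) (h : t ≫ p = 𝟙 Z) {n : ℕ}
    (hX : asym (-1) X n = 0) : asym (-1) Z n = 0 :=
  kills_retract t p h hX

/-- Conservativity for a Chow motive with a parity decomposition. -/
theorem local_conservative [IsIdempotentComplete C] (hc : Conservative R) {X : C} (hX : M.Chow X)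
    {X₀ X₁ : C} (i₀ : X₀ ⟶ X) (r₀ : X ⟶ X₀) (i₁ : X₁ ⟶ X) (r₁ : X ⟶ X₁) (h0 : i₀ ≫ r₀ = 𝟙 X₀)
    (h1 : i₁ ≫ r₁ = 𝟙 X₁) (h2 : r₀ ≫ i₀ + r₁ ≫ i₁ = 𝟙 X) (he : IsEven R X₀) (ho : IsOdd R X₁) :
    IsKimuraFinite X ∧ ∀ s : 𝟙_ C ⟶ X, R.V.map s ≠ 0 → ∃ r : X ⟶ 𝟙_ C, s ≫ r ≠ 0 := by
  refine ⟨(isKimuraFinite_iff X).2 ⟨X₀, X₁, i₀, r₀, i₁, r₁, h0, h1, h2,
    ⟨_, hc.even_asym he _ (Nat.lt_succ_self _)⟩, ⟨_, hc.odd_asym ho _ (Nat.lt_succ_self _)⟩⟩, ?_⟩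
  intro s hs
  have hX₀ : M.Chow X₀ := M.retract i₀ r₀ h0 hX
  have hs1 : R.V.map (s ≫ r₁) = 0 := by
    rw [R.ap_unit_eq_zero]
    have h3 := R.map_mem (s ≫ r₁) R.one_mem
    rw [ho 0 (by simp), Submodule.mem_bot] at h3
    exact h3
  have hs0 : R.V.map (s ≫ r₀) ≠ 0 := by
    intro h3
    apply hs
    have h4 : s = (s ≫ r₀) ≫ i₀ + (s ≫ r₁) ≫ i₁ := by
      rw [Category.assoc, Category.assoc, ← Preadditive.comp_add, h2, Category.comp_id]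
    rw [h4, Functor.map_add, Functor.map_comp _ (s ≫ r₀), Functor.map_comp _ (s ≫ r₁), h3, hs1]
    simp
  obtain ⟨Z, p, δ, hT⟩ := distinguished_cocone_triangle (s ≫ r₀)
  obtain ⟨r, hr⟩ := num_even M hX₀ hT (Module.finrank E (R.V.obj Z) + 1)
    (hc.even_asym (cone_even hT he hs0) _ (Nat.lt_succ_self _))
  exact ⟨r₀ ≫ r, by rwa [← Category.assoc]⟩

end Pool.Agent.R593.Cv
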