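import Pool.Agent.R593.Cv.Defs

/-!
# Consequences of conservativity for Chow motives
-/

set_option autoImplicit false
set_option linter.unusedSectionVars false
set_option backward.isDefEq.respectTransparency false
set_option backward.defeqAttrib.useBackward true

open CategoryTheory Limits MonoidalCategory Pretriangulated Triangulated TensorProduct
open Pool.Agent.R920 Pool.Agent.Y112.KD Pool.Agent.R905
open Pool.Agent.Y116.MT (TensorTriangulated nm tr exists_tr)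

namespace Pool.Agent.R593.Cv

universe v u w

variable {C : Type u} [Category.{v} C] [Preadditive C] [HasZeroObject C] [HasShift C ℤ]
  [∀ n : ℤ, (shiftFunctor C n).Additive] [Pretriangulated C]
  [MonoidalCategory C] [SymmetricCategory C] [TensorTriangulated C] [MonoidalPreadditive C]
  [RightRigidCategory C] [Linear ℚ C] [MonoidalLinear ℚ C]
  {E : Type w} [Field E] [CharZero E] {R : GReal C E} (M : Weights R)

include M in
/-- Sections of even Chow motives. -/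
theorem num_even {X Z : C} (hX : M.Chow X) {s : 𝟙_ C ⟶ X} {p : X ⟶ Z}
    {δ : Z ⟶ (𝟙_ C)⟦(1 : ℤ)⟧} (hT : Triangle.mk s p δ ∈ distTriang C) (n : ℕ)
    (h0 : asym (-1) Z n = 0) : ∃ r : X ⟶ 𝟙_ C, s ≫ r ≠ 0 := by
  by_contra hcon
  push Not at hcon
  exact asym_cone_ne hT M.Chow (fun X' hX' => M.tensor hX' hX)
    (fun X' hX' m hm f => M.noExt hX' M.unit m hm f) M.unit hcon R.not_isZero_unit n h0

lemma unitQ (R : GReal C E) (hE : ∀ e : 𝟙_ C ⟶ 𝟙_ C, ∃ q : ℚ, e = q • 𝟙 (𝟙_ C)) : UnitQ C where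
  ex := hE
  ne h := R.not_isZero_unit ((IsZero.iff_id_eq_zero _).2 h)

/-- Conservativity and parity imply hom = num. -/
theorem Weights.homNum_of_conservative (hc : Conservative R) (hp : M.Parity) : M.HomNum := by
  intro X hX s hs
  obtain ⟨X₀, X₁, i₀, r₀, i₁, r₁, h0, h1, h2, he, ho⟩ := hp X hX
  have hX₀ : M.Chow X₀ := M.retract i₀ r₀ h0 hX
  have hs1 : R.V.map (s ≫ r₁) = 0 := by
    rw [R.ap_unit_eq_zero]
    have h3 := R.map_mem (s ≫ r₁) R.one_mem
    rw [ho 0 (by simp), Submodule.mem_bot] at h3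
    exact h3
  have hs0 : R.V.map (s ≫ r₀) ≠ 0 := by
    intro h3
    apply hs
    have h4 : s = (s ≫ r₀) ≫ i₀ + (s ≫ r₁) ≫ i₁ := by
      rw [Category.assoc, Category.assoc, ← Preadditive.comp_add, h2, Category.comp_id]
    rw [h4, Functor.map_add, Functor.map_comp _ (s ≫ r₀), Functor.map_comp _ (s ≫ r₁), h3, hs1]
    simp
  obtain ⟨Z, p, δ, hT⟩ := distinguished_cocone_triangle (s ≫ r₀)
  obtain ⟨r, hr⟩ := num_even M hX₀ hT (Module.finrank E (R.V.obj Z) + 1)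
    (hc.even_asym (cone_even hT he hs0) _ (Nat.lt_succ_self _))
  exact ⟨r₀ ≫ r, by rwa [← Category.assoc]⟩

/-- Conservativity and parity imply Kimura finiteness. -/
theorem Weights.kimura_of_conservative [IsIdempotentComplete C] (hc : Conservative R)
    (hp : M.Parity) : M.Kimura := by
  intro X hX
  obtain ⟨X₀, X₁, i₀, r₀, i₁, r₁, h0, h1, h2, he, ho⟩ := hp X hX
  exact (isKimuraFinite_iff X).2 ⟨X₀, X₁, i₀, r₀, i₁, r₁, h0, h1, h2,
    ⟨_, hc.even_asym he _ (Nat.lt_succ_self _)⟩, ⟨_, hc.odd_asym ho _ (Nat.lt_succ_self _)⟩⟩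

lemma even_of_asym {X : C} {n : ℕ} (h : asym (-1) X n = 0) : IsEven R X := by
  have h1 := par_eq_of_asym (sup R) (η := (-1 : ℚ)) (by norm_num) h
  intro m hm
  rw [eq_bot_iff]
  intro x hx
  have h2 := LinearMap.congr_fun (congrArg ModuleCat.Hom.hom h1) x
  have h3 : R.par X x = x := by
    refine h2.trans ?_
    simp
  rw [R.par_of_mem hx, Int.negOnePow_odd m hm, Units.neg_smul, one_smul] at h3
  have h4 : (2 : E) • x = 0 := by
    rw [two_smul]
    nth_rewrite 1 [← h3]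
    exact neg_add_cancel x
  rcases smul_eq_zero.1 h4 with h5 | h5
  · exact absurd h5 two_ne_zero
  · exact h5

lemma odd_of_asym {X : C} {n : ℕ} (h : asym 1 X n = 0) : IsOdd R X := by
  have h1 := par_eq_of_asym (sup R) (η := (1 : ℚ)) (by norm_num) h
  intro m hm
  rw [eq_bot_iff]
  intro x hx
  have h2 := LinearMap.congr_fun (congrArg ModuleCat.Hom.hom h1) x
  have h3 : R.par X x = -x := by
    refine h2.trans ?_
    simp
  rw [R.par_of_mem hx, Int.negOnePow_even m hm, one_smul] at h3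
  have h4 : (2 : E) • x = 0 := by
    rw [two_smul]
    nth_rewrite 1 [h3]
    exact neg_add_cancel x
  rcases smul_eq_zero.1 h4 with h5 | h5
  · exact absurd h5 two_ne_zero
  · exact h5

theorem Weights.parity_of_kimura [IsIdempotentComplete C] (hk : M.Kimura) : M.Parity := by
  intro X hX
  obtain ⟨X₀, X₁, i₀, r₀, i₁, r₁, h0, h1, h2, ⟨n, hn⟩, m, hm⟩ := (isKimuraFinite_iff X).1 (hk X hX)
  exact ⟨X₀, X₁, i₀, r₀, i₁, r₁, h0, h1, h2, even_of_asym hn, odd_of_asym hm⟩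

variable (hE : ∀ e : 𝟙_ C ⟶ 𝟙_ C, ∃ q : ℚ, e = q • 𝟙 (𝟙_ C))

include hE

theorem Weights.nil_of_kimura [IsIdempotentComplete C] (hk : M.Kimura) : M.Nilpotence := by
  intro X hX f hf
  exact (hk X hX).homNil (sup R) (unitQ R hE) f hf

/-- Non-degeneracy of the trace pairing. -/
lemma Weights.nondeg (hg : M.HomNum) {X : C} (hX : M.Chow X) (a : X ⟶ X)
    (ha : R.V.map a ≠ 0) : ∃ (b : X ⟶ X) (q : ℚ), q ≠ 0 ∧ tr (a ≫ b) = q • 𝟙 _ := by
  have h1 : R.V.map (nm a) ≠ 0 := fun h => ha (R.zero_of_nm a h)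
  obtain ⟨r, hr⟩ := hg _ (M.tensor hX (M.dual hX)) (nm a) h1
  obtain ⟨b, hb⟩ := exists_tr r
  obtain ⟨q, hq⟩ := hE (tr (a ≫ b))
  refine ⟨b, q, ?_, hq⟩
  rintro rfl
  rw [zero_smul] at hq
  rw [hb, hq] at hr
  exact hr rfl

/-- Regularity of the endomorphism ring modulo homological equivalence. -/
lemma Weights.reg_end (hg : M.HomNum) {X : C} (hX : M.Chow X) (a : X ⟶ X) :
    ∃ b : X ⟶ X, ∀ x, R.ap a (R.ap b (R.ap a x)) = R.ap a x := by
  obtain ⟨b, hb⟩ := regular_mod (R.rho X) (R.par X) (R.par_commute X) (by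
    intro a
    obtain ⟨q, hq⟩ := hE (tr (a : X ⟶ X))
    refine ⟨q, ?_⟩
    rw [R.strace_eq (a : X ⟶ X) q hq]
    simp) (by
    intro a ha
    have h1 : R.V.map (a : X ⟶ X) ≠ 0 := by
      intro h0
      apply ha
      ext x
      exact (R.map_eq_zero_iff _).1 h0 x
    obtain ⟨b, q, hq, hb⟩ := M.nondeg hE hg hX a h1
    refine ⟨b, ?_⟩
    have h2 := R.strace_eq ((a : X ⟶ X) ≫ b) q hb
    have h3 : R.rho X ((a : X ⟶ X) ≫ b : X ⟶ X) = R.rho X b * R.rho X a :=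
      R.rho X |>.map_mul b a
    rw [h3, ← mul_assoc, LinearMap.trace_mul_comm, ← mul_assoc,
      ← (R.par_commute X a).eq, mul_assoc] at h2
    rw [h2]
    exact_mod_cast hq) (a : End X)
  refine ⟨b, fun x => ?_⟩
  have h4 := LinearMap.congr_fun hb x
  rw [map_mul, map_mul] at h4
  exact h4

/-- Regularity for morphisms of Chow motives. -/
lemma Weights.reg_hom (hg : M.HomNum) {X Y : C} (hX : M.Chow X) (hY : M.Chow Y) (f : X ⟶ Y) :
    ∃ g : Y ⟶ X, ∀ x, R.ap f (R.ap g (R.ap f x)) = R.ap f x := by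
  let a : X ⊞ Y ⟶ X ⊞ Y := biprod.fst ≫ f ≫ biprod.inr
  obtain ⟨b, hb⟩ := M.reg_end hE hg (M.sum hX hY) a
  refine ⟨biprod.inr ≫ b ≫ biprod.fst, fun x => ?_⟩
  have h1 := hb (R.ap (biprod.inl : X ⟶ X ⊞ Y) x)
  have h2 := congrArg (R.ap (biprod.snd : X ⊞ Y ⟶ Y)) h1
  simp only [← GReal.ap_comp] at h2 ⊢
  have e1 : (biprod.inl : X ⟶ X ⊞ Y) ≫ a ≫ b ≫ a ≫ (biprod.snd : X ⊞ Y ⟶ Y) =
      f ≫ (biprod.inr ≫ b ≫ biprod.fst) ≫ f := by simp [a]
  have e2 : (biprod.inl : X ⟶ X ⊞ Y) ≫ a ≫ (biprod.snd : X ⊞ Y ⟶ Y) = f := by simp [a]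
  simp only [Category.assoc] at h2 e1 e2 ⊢
  rw [e1, e2] at h2
  exact h2

/-- Nilpotence and hom = num imply the splitting of injections. -/
theorem Weights.splitting (hn : M.Nilpotence) (hg : M.HomNum) : M.Splitting := by
  intro X Y hX hY f hf
  obtain ⟨g, hg'⟩ := M.reg_hom hE hg hX hY f
  have h1 : R.V.map (f ≫ g - 𝟙 X) = 0 := by
    rw [GReal.map_eq_zero_iff]
    intro x
    rw [GReal.ap_sub, GReal.ap_comp, GReal.ap_id, sub_eq_zero]
    exact hf (hg' x)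
  have h2 := (hn X hX _ h1).isUnit_add_one
  have h3 : End.of (f ≫ g - 𝟙 X) + 1 = (End.of (f ≫ g) : End X) := sub_add_cancel (f ≫ g) (𝟙 X)
  rw [h3] at h2
  obtain ⟨U, hU⟩ := h2
  refine ⟨g ≫ ((U⁻¹ : (End X)ˣ) : End X), ?_⟩
  have h4 := U.inv_mul
  rw [hU, End.mul_def] at h4
  rw [← Category.assoc]
  exact h4

end Pool.Agent.R593.Cv
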