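import Pool.Agent.R593.Cv.Super

/-!
# The vanishing of the realisation of the exterior and symmetric powers
-/

set_option autoImplicit false
set_option linter.unusedSectionVars false
set_option backward.isDefEq.respectTransparency false
set_option backward.defeqAttrib.useBackward true

open CategoryTheory Limits MonoidalCategory Pretriangulated Triangulated TensorProduct
open Pool.Agent.R920 Pool.Agent.Y112.KD

namespace Pool.Agent.R593.Cv

universe v u w

open Functor.LaxMonoidal

/-- A function of `n + 1` vectors which changes its sign when two neighbouring vectors are exchanged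
vanishes if two of the vectors are equal. -/
lemma adj_zero {V W : Type*} [AddCommGroup W] (h2 : ∀ x : W, x = -x → x = 0) {n : ℕ}
    (G : (Fin (n + 1) → V) → W)
    (hG : ∀ (v : Fin (n + 1) → V) (i : Fin n), G (v ∘ Equiv.swap i.castSucc i.succ) = -G v)
    (k : ℕ) : ∀ (v : Fin (n + 1) → V) (a b : Fin (n + 1)), (b : ℕ) = a + k + 1 → v a = v b →
      G v = 0 := by
  induction k with
  | zero =>
    intro v a b hab h
    have hb := b.isLt
    let i : Fin n := ⟨a, by omega⟩
    have ha' : i.castSucc = a := Fin.ext rfl
    have hb' : i.succ = b := Fin.ext (by simp [i, hab])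
    have h1 := hG v i
    have h3 : v ∘ Equiv.swap i.castSucc i.succ = v := by
      funext c
      simp only [Function.comp_apply]
      rw [ha', hb']
      by_cases hca : c = a
      · rw [hca, Equiv.swap_apply_left, h]
      · by_cases hcb : c = b
        · rw [hcb, Equiv.swap_apply_right, h]
        · rw [Equiv.swap_apply_of_ne_of_ne hca hcb]
    rw [h3] at h1
    exact h2 _ h1
  | succ k ih =>
    intro v a b hab h
    have hb := b.isLt
    let i : Fin n := ⟨a + k + 1, by omega⟩
    have hb' : i.succ = b := Fin.ext (by simp [i, hab]; ring)
    have h1 := hG v i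
    have hne1 : a ≠ i.castSucc := fun h => by
      have := congrArg Fin.val h
      simp [i] at this
      omega
    have hne2 : a ≠ i.succ := fun h => by
      have := congrArg Fin.val h
      simp [i] at this
      omega
    have h3 : G (v ∘ Equiv.swap i.castSucc i.succ) = 0 := by
      refine ih _ a i.castSucc (by simp [i]) ?_
      simp only [Function.comp_apply]
      rw [Equiv.swap_apply_left, Equiv.swap_apply_of_ne_of_ne hne1 hne2, hb', h]
    rw [h3] at h1
    exact (neg_eq_zero.1 h1.symm)

variable {C : Type u} [Category.{v} C] [Preadditive C] [HasZeroObject C] [HasShift C ℤ]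
  [∀ n : ℤ, (shiftFunctor C n).Additive] [Pretriangulated C] [MonoidalCategory C]
  [SymmetricCategory C] {E : Type w} [Field E] (R : GReal C E)

/-- The pure tensors. -/
noncomputable def tpu (X : C) : ∀ (n : ℕ) (_ : Fin n → R.V.obj X), R.V.obj (tp X n)
  | 0, _ => one R.V
  | n + 1, v => mul R.V (tpu X n (Fin.init v)) (v (Fin.last n))

lemma tpu_succ (X : C) (n : ℕ) (v : Fin (n + 1) → R.V.obj X) :
    tpu R X (n + 1) v = mul R.V (tpu R X n (Fin.init v)) (v (Fin.last n)) := rfl

/-- The pure tensors of basis vectors span. -/
lemma tpu_span (X : C) {ι : Type*} (b : Module.Basis ι E (R.V.obj X)) (n : ℕ) :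
    ∀ y : R.V.obj (tp X n), y ∈ Submodule.span E
      (Set.range fun f : Fin n → ι => tpu R X n (fun k => b (f k))) := by
  induction n with
  | zero =>
    intro y
    obtain ⟨c, rfl⟩ := eq_smul_one R.V y
    exact Submodule.smul_mem _ _ (Submodule.subset_span ⟨Fin.elim0, rfl⟩)
  | succ n ih =>
    intro y
    refine R.mul_induction (p := fun y => y ∈ Submodule.span E (Set.range
      fun f : Fin (n + 1) → ι => tpu R X (n + 1) (fun k => b (f k)))) y ?_ ?_ ?_
    · intro _ _ a c ha hc
      clear ha hc
      have h1 := ih a
      induction h1 using Submodule.span_induction with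
      | mem z hz =>
        obtain ⟨f, rfl⟩ := hz
        have h2 : c ∈ Submodule.span E (Set.range b) := by
          rw [b.span_eq]
          trivial
        induction h2 using Submodule.span_induction with
        | mem z hz =>
          obtain ⟨j, rfl⟩ := hz
          refine Submodule.subset_span ⟨Fin.snoc f j, ?_⟩
          have e1 : (Fin.init fun k => b ((Fin.snoc f j : Fin (n + 1) → ι) k)) =
              fun k => b (f k) := by
            funext k
            simp [Fin.init]
          simp only [tpu_succ, Fin.snoc_last]
          rw [e1]
        | zero => rw [mul_zero']; exact Submodule.zero_mem _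
        | add p q _ _ hp hq => rw [mul_add']; exact Submodule.add_mem _ hp hq
        | smul d p _ hp => rw [mul_smul']; exact Submodule.smul_mem _ d hp
      | zero => rw [zero_mul']; exact Submodule.zero_mem _
      | add p q _ _ hp hq => rw [add_mul']; exact Submodule.add_mem _ hp hq
      | smul d p _ hp => rw [R920.smul_mul']; exact Submodule.smul_mem _ d hp
    · exact Submodule.zero_mem _
    · exact fun a b ha hb => Submodule.add_mem _ ha hb

/-- The symmetry of `X ⊗ X` is realised by the exchange, up to the sign `θ`. -/
def Braids (θ : E) (X : C) : Prop :=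
  ∀ x y : R.V.obj X, R.ap (β_ X X).hom (mul R.V x y) = θ • mul R.V y x

variable {R}

lemma ap_sw {θ : E} {X : C} (hX : Braids R θ X) (W : C) (a : R.V.obj W) (b c : R.V.obj X) :
    R.ap (sw W X) (mul R.V (mul R.V a b) c) = θ • mul R.V (mul R.V a c) b := by
  rw [sw]
  simp only [GReal.ap_comp]
  rw [GReal.ap_assoc, GReal.ap_wl, hX b c, mul_smul', map_smul, GReal.ap_assoc_inv]

/-- The exchange of neighbouring factors on pure tensors. -/
lemma exists_swap {θ : E} {X : C} (hX : Braids R θ X) (n : ℕ) : ∀ i : Fin n,
    ∃ s, IsSwap X (n + 1) s ∧ ∀ v : Fin (n + 1) → R.V.obj X,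
      R.ap s (tpu R X (n + 1) v) = θ • tpu R X (n + 1) (v ∘ Equiv.swap i.castSucc i.succ) := by
  induction n with
  | zero => exact fun i => i.elim0
  | succ n ih =>
    intro i
    refine Fin.lastCases ?_ (fun j => ?_) i
    · refine ⟨sw (tp X n) X, IsSwap.last n, fun v => ?_⟩
      rw [tpu_succ, tpu_succ, ap_sw hX, tpu_succ, tpu_succ]
      have e1 : (Fin.init (Fin.init (v ∘ Equiv.swap (Fin.last n).castSucc (Fin.last n).succ)) :
          Fin n → R.V.obj X) = Fin.init (Fin.init v) := by
        funext k
        simp only [Fin.init, Function.comp_apply]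
        congr 1
        apply Equiv.swap_apply_of_ne_of_ne
        · intro h
          have := congrArg Fin.val h
          simp at this
          have := k.isLt
          omega
        · intro h
          have := congrArg Fin.val h
          simp at this
          have := k.isLt
          omega
      rw [e1]
      have e2 : (v ∘ Equiv.swap (Fin.last n).castSucc (Fin.last n).succ) (Fin.last (n + 1)) =
          v (Fin.last n).castSucc := by
        simp only [Function.comp_apply]
        rw [Fin.succ_last, Equiv.swap_apply_right]
      have e3 : (Fin.init (v ∘ Equiv.swap (Fin.last n).castSucc (Fin.last n).succ)) (Fin.last n) =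
          v (Fin.last (n + 1)) := by
        simp only [Fin.init, Function.comp_apply]
        rw [Equiv.swap_apply_left, Fin.succ_last]
      rw [e2, e3]
      rfl
    · obtain ⟨s, hs, h⟩ := ih j
      refine ⟨s ▷ X, IsSwap.lift _ _ hs, fun v => ?_⟩
      rw [tpu_succ, GReal.ap_wr, h, R920.smul_mul', tpu_succ R X (n + 1)]
      have e1 : (Fin.init (v ∘ Equiv.swap j.castSucc.castSucc j.castSucc.succ) :
          Fin (n + 1) → R.V.obj X) = Fin.init v ∘ Equiv.swap j.castSucc j.succ := by
        funext k
        simp only [Fin.init, Function.comp_apply]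
        congr 1
        rw [Fin.succ_castSucc]
        by_cases h1 : k = j.castSucc
        · rw [h1, Equiv.swap_apply_left, Equiv.swap_apply_left]
        · by_cases h2 : k = j.succ
          · rw [h2, Equiv.swap_apply_right, Equiv.swap_apply_right]
          · rw [Equiv.swap_apply_of_ne_of_ne h1 h2, Equiv.swap_apply_of_ne_of_ne]
            · exact fun h => h1 (Fin.castSucc_injective _ h)
            · exact fun h => h2 (Fin.castSucc_injective _ h)
      have e2 : (v ∘ Equiv.swap j.castSucc.castSucc j.castSucc.succ) (Fin.last (n + 1)) =
          v (Fin.last (n + 1)) := by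
        simp only [Function.comp_apply]
        congr 1
        apply Equiv.swap_apply_of_ne_of_ne
        · intro h
          have := congrArg Fin.val h
          simp at this
          have := j.isLt
          omega
        · intro h
          have := congrArg Fin.val h
          simp at this
          have := j.isLt
          omega
      rw [e1, e2]

variable [Linear ℚ C] [MonoidalPreadditive C] [MonoidalLinear ℚ C] [CharZero E]

/-- The realisation of the antisymmetrizer of an even object (`η = -1`, `θ = 1`) and of the
symmetrizer of an odd object (`η = 1`, `θ = -1`) of a high tensor power is zero. -/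
theorem map_asym_zero {η : ℚ} {X : C} (hη : η * η = 1) (hX : Braids R (-(η : E)) X) (n : ℕ)
    (hn : Module.finrank E (R.V.obj X) < n) : R.V.map (asym η X n) = 0 := by
  obtain ⟨n, rfl⟩ : ∃ m, n = m + 1 := ⟨n - 1, by omega⟩
  rw [GReal.map_eq_zero_iff]
  intro y
  have hy := tpu_span R X (Module.finBasis E (R.V.obj X)) (n + 1) y
  induction hy using Submodule.span_induction with
  | mem z hz =>
    obtain ⟨f, rfl⟩ := hz
    have hf : ¬ Function.Injective f := by
      intro hf
      have := Fintype.card_le_of_injective f hf
      simp at this
      omega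
    have hηE : (η : E) * (η : E) = 1 := by exact_mod_cast hη
    have key : ∀ (v : Fin (n + 1) → R.V.obj X) (i : Fin n),
        R.ap (asym η X (n + 1)) (tpu R X (n + 1) (v ∘ Equiv.swap i.castSucc i.succ)) =
          -R.ap (asym η X (n + 1)) (tpu R X (n + 1) v) := by
      intro v i
      obtain ⟨s, hs, h⟩ := exists_swap hX n i
      have h1 := (swap_asym hη X hs).1
      have h3 : R.ap (s ≫ asym η X (n + 1)) (tpu R X (n + 1) v) =
          R.ap (η • asym η X (n + 1)) (tpu R X (n + 1) v) := by rw [h1]
      rw [GReal.ap_comp, h, map_smul, R.ap_qsmul] at h3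
      have h4 := congrArg (fun z => (-(η : E)) • z) h3
      simp only [smul_smul] at h4
      rw [show -(η : E) * -(η : E) = 1 by rw [neg_mul_neg, hηE], one_smul,
        show -(η : E) * (η : E) = -1 by rw [neg_mul, hηE], neg_one_smul] at h4
      exact h4
    have h2 : ∀ x : R.V.obj (tp X (n + 1)), x = -x → x = 0 := by
      intro x hx
      have h3 : (2 : E) • x = 0 := by
        rw [two_smul]
        nth_rewrite 2 [hx]
        exact add_neg_cancel x
      rcases smul_eq_zero.1 h3 with h4 | h4
      · exact absurd h4 two_ne_zero
      · exact h4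
    obtain ⟨a, b, hab, hne⟩ : ∃ a b, f a = f b ∧ a ≠ b := by
      unfold Function.Injective at hf
      push Not at hf
      exact hf
    rcases lt_or_gt_of_ne hne with h | h
    · exact adj_zero h2 (fun v => R.ap (asym η X (n + 1)) (tpu R X (n + 1) v)) key
        ((b : ℕ) - a - 1) _ a b (by have : (a : ℕ) < b := h; omega) (by simp only [hab])
    · exact adj_zero h2 (fun v => R.ap (asym η X (n + 1)) (tpu R X (n + 1) v)) key
        ((a : ℕ) - b - 1) _ b a (by have : (b : ℕ) < a := h; omega) (by simp only [hab])
  | zero => simp
  | add p q _ _ hp hq => rw [map_add, hp, hq, add_zero]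
  | smul c p _ hp => rw [map_smul, hp, smul_zero]

end Pool.Agent.R593.Cv
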