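import Pool.Agent.R920.GR.Slice
import Pool.Agent.R905.Div

/-!
# The super realisation of a graded realisation
-/

set_option autoImplicit false
set_option linter.unusedSectionVars false
set_option backward.isDefEq.respectTransparency false
set_option backward.defeqAttrib.useBackward true

open CategoryTheory Limits MonoidalCategory Pretriangulated Triangulated TensorProduct
open Pool.Agent.Y112.SR (SuperRealisation)
open Pool.Agent.R920

namespace Pool.Agent.R593.Cv

universe v u w

open Functor.LaxMonoidal

variable {C : Type u} [Category.{v} C] [Preadditive C] [HasZeroObject C] [HasShift C ℤ]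
  [∀ n : ℤ, (shiftFunctor C n).Additive] [Pretriangulated C] [MonoidalCategory C]
  [SymmetricCategory C] {E : Type w} [Field E] (R : GReal C E)

lemma par_par (X : C) (x : R.V.obj X) : R.par X (R.par X x) = x := by
  refine R.hom_induction (p := fun x => R.par X (R.par X x) = x) x ?_ ?_ ?_
  · intro i y hy
    rw [R.par_of_mem hy]
    rcases Int.even_or_odd i with h | h
    · rw [Int.negOnePow_even i h, one_smul, R.par_of_mem hy, Int.negOnePow_even i h, one_smul]
    · rw [Int.negOnePow_odd i h, Units.neg_smul, one_smul, map_neg, R.par_of_mem hy,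
        Int.negOnePow_odd i h, Units.neg_smul, one_smul, neg_neg]
  · simp
  · intro y z hy hz
    simp only [map_add, hy, hz]

lemma hom_induction₂ {X Y : C} {p : R.V.obj X → R.V.obj Y → Prop} (x : R.V.obj X)
    (y : R.V.obj Y) (h : ∀ (i j : ℤ) (x : R.V.obj X) (y : R.V.obj Y), x ∈ R.gr X i →
      y ∈ R.gr Y j → p x y) (h0 : ∀ y, p 0 y) (h0' : ∀ x, p x 0)
    (ha : ∀ x x' y, p x y → p x' y → p (x + x') y)
    (ha' : ∀ x y y', p x y → p x y' → p x (y + y')) : p x y := by
  refine R.hom_induction (p := fun x => p x y) x ?_ (h0 y) (fun a b => ha a b y)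
  intro i x hx
  refine R.hom_induction (p := fun y => p x y) y ?_ (h0' x) (fun a b => ha' x a b)
  intro j y hy
  exact h i j x y hx hy

lemma par_mul {X Y : C} (x : R.V.obj X) (y : R.V.obj Y) :
    R.par (X ⊗ Y) (mul R.V x y) = mul R.V (R.par X x) (R.par Y y) := by
  refine hom_induction₂ R (p := fun x y => R.par (X ⊗ Y) (mul R.V x y) =
    mul R.V (R.par X x) (R.par Y y)) x y ?_ ?_ ?_ ?_ ?_
  · intro i j x y hx hy
    rw [R.par_of_mem hx, R.par_of_mem hy, R.par_of_mem (R.mul_mem hx hy), R.nop_mul, R.nop_mul',
      smul_smul, Int.negOnePow_add, mul_comm]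
  · intro y
    rw [zero_mul', map_zero, map_zero, zero_mul']
  · intro x
    rw [mul_zero', map_zero, map_zero, mul_zero']
  · intro x x' y h h'
    rw [add_mul', map_add, h, h', map_add, add_mul']
  · intro x y y' h h'
    rw [mul_add', map_add, h, h', map_add, mul_add']

lemma two_braid {X Y : C} (x : R.V.obj X) (y : R.V.obj Y) :
    (2 : E) • R.ap (β_ X Y).hom (mul R.V x y) = mul R.V y x + mul R.V y (R.par X x) +
      mul R.V (R.par Y y) x - mul R.V (R.par Y y) (R.par X x) := by
  refine hom_induction₂ R (p := fun x y => (2 : E) • R.ap (β_ X Y).hom (mul R.V x y) =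
    mul R.V y x + mul R.V y (R.par X x) + mul R.V (R.par Y y) x -
      mul R.V (R.par Y y) (R.par X x)) x y ?_ ?_ ?_ ?_ ?_
  · intro i j x y hx hy
    rw [R.ap_braid hx hy, R.par_of_mem hx, R.par_of_mem hy]
    simp only [R.nop_mul, R.nop_mul']
    rcases Int.even_or_odd i with hi | hi <;> rcases Int.even_or_odd j with hj | hj
    · rw [Int.negOnePow_even _ hi, Int.negOnePow_even _ hj, Int.negOnePow_even _ (hi.mul_right j)]
      simp only [one_smul, two_smul]
      abel
    · rw [Int.negOnePow_even _ hi, Int.negOnePow_odd _ hj, Int.negOnePow_even _ (hi.mul_right j)]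
      simp only [one_smul, two_smul, Units.neg_smul]
      abel
    · rw [Int.negOnePow_odd _ hi, Int.negOnePow_even _ hj, Int.negOnePow_even _ (hj.mul_left i)]
      simp only [one_smul, two_smul, Units.neg_smul]
      abel
    · rw [Int.negOnePow_odd _ hi, Int.negOnePow_odd _ hj, Int.negOnePow_odd _ (hi.mul hj)]
      simp only [one_smul, two_smul, Units.neg_smul, neg_neg]
      abel
  · intro y
    simp only [zero_mul', mul_zero', map_zero, smul_zero]
    simp
  · intro x
    simp only [zero_mul', mul_zero', map_zero, smul_zero]
    simp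
  · intro x x' y h h'
    rw [add_mul', map_add, smul_add, h, h']
    simp only [map_add, mul_add', add_mul']
    abel
  · intro x y y' h h'
    rw [mul_add', map_add, smul_add, h, h']
    simp only [map_add, mul_add', add_mul']
    abel

/-- The super realisation of a graded realisation. -/
noncomputable def sup : SuperRealisation C E where
  H := R.V
  finite := R.finite
  par X := ModuleCat.ofHom (R.par X)
  par_sq X := by
    ext x
    exact par_par R X x
  par_natural {X Y} f := by
    ext x
    exact R.par_natural f x
  par_unit := by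
    ext x
    obtain ⟨c, rfl⟩ := eq_smul_one R.V x
    change R.par (𝟙_ C) (c • one R.V) = c • one R.V
    rw [map_smul, R.par_of_mem R.one_mem, Int.negOnePow_zero, one_smul]
  par_tensor X Y := by
    apply ModuleCat.hom_ext
    apply TensorProduct.ext'
    intro x y
    exact par_mul R x y
  symm X Y := by
    apply ModuleCat.hom_ext
    apply TensorProduct.ext'
    intro x y
    have h := two_braid R x y
    rw [ModuleCat.hom_smul, LinearMap.smul_apply]
    refine h.trans ?_
    simp only [Preadditive.sub_comp, Preadditive.add_comp, Category.id_comp]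
    rfl

end Pool.Agent.R593.Cv
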