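import Pool.Agent.R593.Cv.Num

/-!
# The splitting property implies conservativity
-/

set_option autoImplicit false
set_option linter.unusedSectionVars false
set_option backward.isDefEq.respectTransparency false
set_option backward.defeqAttrib.useBackward true

open CategoryTheory Limits MonoidalCategory Pretriangulated Triangulated TensorProduct
open Pool.Agent.R920 ObjectProperty
open Pool.Agent.Y116.MT

namespace Pool.Agent.R593.Cv

universe v u w

variable {C : Type u} [Category.{v} C] [Preadditive C] [HasZeroObject C] [HasShift C ℤ]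
  [∀ n : ℤ, (shiftFunctor C n).Additive] [Pretriangulated C]
  [MonoidalCategory C] [SymmetricCategory C] [RightRigidCategory C]
  {E : Type w} [Field E] {R : GReal C E} (M : Weights R)

namespace Weights

lemma chow_iso {X Y : C} (e : X ≅ Y) (h : M.Chow X) : M.Chow Y :=
  M.retract e.inv e.hom e.inv_hom_id h

lemma chow_zero {X : C} (h : IsZero X) : M.Chow X :=
  M.retract (X := 𝟙_ C) 0 0 (h.eq_of_src _ _) M.unit

lemma map_mem {X Y : C} (f : X ⟶ Y) {w : ℤ} {x : R.V.obj X} (hx : x ∈ M.W X w) :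
    (R.V.map f).hom x ∈ M.W Y w :=
  M.map_le f w (Submodule.mem_map_of_mem hx)

lemma strict' {X Y : C} (f : X ⟶ Y) {w : ℤ} (x : R.V.obj X) (hx : (R.V.map f).hom x ∈ M.W Y w) :
    ∃ x' ∈ M.W X w, (R.V.map f).hom x' = (R.V.map f).hom x := by
  obtain ⟨x', hx', h'⟩ := M.strict f w ⟨hx, x, rfl⟩
  exact ⟨x', hx', h'⟩

lemma graded' {X : C} (n : ℤ) {w : ℤ} {x : R.V.obj X} (hx : x ∈ M.W X w) :
    R.pr X n x ∈ M.W X w := by
  refine Submodule.iSup_induction _ (motive := fun x => R.pr X n x ∈ M.W X w)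
    (M.graded X w hx) ?_ ?_ ?_
  · rintro i y ⟨h1, h2⟩
    by_cases hi : i = n
    · subst hi
      rw [R.pr_of_mem h1]
      exact h2
    · rw [R.pr_of_mem_ne h1 hi]
      exact Submodule.zero_mem _
  · rw [map_zero]
    exact Submodule.zero_mem _
  · intro y z hy hz
    rw [map_add]
    exact Submodule.add_mem _ hy hz

lemma pure_lt' {P : C} (b m : ℤ) {x : R.V.obj (P⟦b⟧)} (hP : M.Chow P)
    (h1 : x ∈ R.gr (P⟦b⟧) m) (h2 : x ∈ M.W (P⟦b⟧) (m + b - 1)) : x = 0 := by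
  have h3 : x ∈ R.gr (P⟦b⟧) m ⊓ M.W (P⟦b⟧) (m + b - 1) := ⟨h1, h2⟩
  rwa [M.pure_lt b m hP, Submodule.mem_bot] at h3

/-- Extensions of Chow motives are Chow motives. -/
lemma chow_ext {A X Z : C} {f : A ⟶ X} {g : X ⟶ Z} {h : Z ⟶ A⟦(1 : ℤ)⟧}
    (hT : Triangle.mk f g h ∈ distTriang C) (hA : M.Chow A) (hZ : M.Chow Z) : M.Chow X := by
  obtain ⟨s, hs⟩ := split3' hT (M.noExt hZ hA 1 one_pos h)
  obtain ⟨l, hl⟩ := ce2 hT (𝟙 X - g ≫ s) (by
    rw [Preadditive.sub_comp, Category.id_comp, Category.assoc, hs, Category.comp_id, sub_self])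
  refine M.retract (biprod.lift l g) (biprod.desc f s) ?_ (M.sum hA hZ)
  rw [biprod.lift_desc, ← hl]
  abel

/-- The shifts `P⟦i⟧` of Chow motives. -/
def Sh (i : ℤ) : ObjectProperty C := fun X => M.Chow (X⟦-i⟧)

instance (i : ℤ) : (M.Sh i).IsClosedUnderIsomorphisms :=
  ⟨fun e h => M.chow_iso ((shiftFunctor C (-i)).mapIso e) h⟩

lemma Sh.shift {i : ℤ} {X : C} (a j : ℤ) (hj : i + a = j) (h : M.Sh i X) : M.Sh j (X⟦a⟧) :=
  M.chow_iso ((shiftFunctorAdd' C a (-j) (-i) (by omega)).app X) h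

lemma Sh.of_chow {X : C} (h : M.Chow X) : M.Sh 0 X :=
  M.chow_iso ((shiftFunctorZero' C (-0 : ℤ) (by simp)).app X).symm h

lemma Sh.retract {i : ℤ} {X Y : C} (a : Y ⟶ X) (r : X ⟶ Y) (h : a ≫ r = 𝟙 Y)
    (hX : M.Sh i X) : M.Sh i Y :=
  M.retract (a⟦-i⟧') (r⟦-i⟧') (by
    rw [← CategoryTheory.Functor.map_comp, h, CategoryTheory.Functor.map_id]) hX

lemma Sh.ext {i : ℤ} {A X Z : C} {f : A ⟶ X} {g : X ⟶ Z} {h : Z ⟶ A⟦(1 : ℤ)⟧}
    (hT : Triangle.mk f g h ∈ distTriang C) (hA : M.Sh i A) (hZ : M.Sh i Z) : M.Sh i X :=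
  M.chow_ext (Triangle.shift_distinguished _ hT (-i)) hA hZ

/-- There are no morphisms to shifts of higher weight. -/
lemma Sh.hom_zero {i j : ℤ} {X Y : C} (hX : M.Sh i X) (hY : M.Sh j Y) (h : i < j)
    (f : X ⟶ Y) : f = 0 := by
  let e : Y⟦-i⟧ ≅ (Y⟦-j⟧)⟦j - i⟧ := (shiftFunctorAdd' C (-j) (j - i) (-i) (by ring)).app Y
  have h1 := M.noExt hX hY (j - i) (by omega) (f⟦-i⟧' ≫ e.hom)
  have h2 : f⟦-i⟧' = 0 := by
    rw [← cancel_mono e.hom, h1, zero_comp]
  exact (shiftFunctor C (-i)).map_injective (by rw [h2, Functor.map_zero])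

/-- The shifts of Chow motives by elements of `D`. -/
def AS (D : Set ℤ) : ObjectProperty C := fun X => ∃ i ∈ D, M.Sh i X

instance (D : Set ℤ) : (M.AS D).IsClosedUnderIsomorphisms :=
  ⟨fun e ⟨d, hd, h⟩ => ⟨d, hd, (M.Sh d).prop_of_iso e h⟩⟩

lemma AS.mono {D D' : Set ℤ} (h : D ⊆ D') : M.AS D ≤ M.AS D' :=
  fun _ ⟨d, hd, hX⟩ => ⟨d, h hd, hX⟩

lemma tow_mono' {P Q : ObjectProperty C} (h : P ≤ Q) (n : ℕ) : tow P n ≤ tow Q n := by
  induction n with
  | zero => exact le_rfl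
  | succ n ih =>
    rintro X ⟨A, Z, f, g, k, hT, hA, hZ⟩
    exact ⟨A, Z, f, g, k, hT, h _ hA, ih _ hZ⟩

lemma tow_shift' {P Q : ObjectProperty C} (a : ℤ) (h : ∀ X, P X → Q (X⟦a⟧)) (n : ℕ) :
    ∀ X, tow P n X → tow Q n (X⟦a⟧) := by
  induction n with
  | zero => exact fun X hk => (shiftFunctor C a).map_isZero hk
  | succ k ih =>
    rintro X ⟨A, Z, f, g, d, hT, hA, hZ⟩
    exact ⟨_, _, _, _, _, Triangle.shift_distinguished _ hT a, h _ hA, ih _ hZ⟩

lemma tow_sh (i : ℤ) (n : ℕ) : ∀ X, tow (M.AS {i}) n X → M.Sh i X := by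
  induction n with
  | zero => exact fun X hX => M.chow_zero ((shiftFunctor C (-i)).map_isZero hX)
  | succ n ih =>
    rintro X ⟨A, Z, f, g, k, hT, ⟨j, hj, hA⟩, hZ⟩
    obtain rfl : j = i := hj
    exact Sh.ext M hT hA (ih Z hZ)

/-- Objects with a filtration with graded pieces shifted Chow motives of increasing weights. -/
def Srt : ℕ → ℤ → ObjectProperty C
  | 0, _ => zer C
  | k + 1, b => extensionProduct (Srt k (b - 1)) (M.Sh b)

instance (k : ℕ) (b : ℤ) : (M.Srt k b).IsClosedUnderIsomorphisms := by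
  cases k with
  | zero => exact inferInstanceAs (zer C).IsClosedUnderIsomorphisms
  | succ k => exact inferInstanceAs (extensionProduct _ _).IsClosedUnderIsomorphisms

lemma Srt.shift (k : ℕ) (a : ℤ) : ∀ (b j : ℤ), b + a = j → ∀ X, M.Srt k b X →
    M.Srt k j (X⟦a⟧) := by
  induction k with
  | zero => exact fun _ _ _ X hX => (shiftFunctor C a).map_isZero hX
  | succ k ih =>
    rintro b j hj X ⟨A, Z, f, g, d, hT, hA, hZ⟩
    exact ⟨_, _, _, _, _, Triangle.shift_distinguished _ hT a, ih (b - 1) (j - 1) (by omega) _ hA,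
      Sh.shift M a j hj hZ⟩

variable [IsTriangulated C]

lemma AS.swap {D₁ D₂ : Set ℤ} (hD : ∀ a ∈ D₁, ∀ b ∈ D₂, b ≤ a) :
    extensionProduct (M.AS D₁) (M.AS D₂) ≤ extensionProduct (M.AS D₂) (M.AS D₁) := by
  rintro X ⟨A, B, f, g, h, hT, ⟨d, hd, hA⟩, ⟨d', hd', hB⟩⟩
  have hdd := hD d hd d' hd'
  have h0 : h = 0 := Sh.hom_zero M hB (Sh.shift M 1 (d + 1) rfl hA) (by omega) h
  obtain ⟨r, hr⟩ := split3 hT h0
  obtain ⟨Z, j, q, h1, h2, h3, h4⟩ := exists_complement f r hr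
  have hT2 : Triangle.mk j r 0 ∈ distTriang C := split_dist h1 hr h3 h2 (by
    rw [add_comm]; exact h4)
  refine ⟨Z, A, j, r, 0, hT2, ⟨d', hd', ?_⟩, ⟨d, hd, hA⟩⟩
  -- `Z` is isomorphic to `B`
  obtain ⟨s, hs⟩ := split3' hT h0
  refine Sh.retract M (j ≫ g) (s ≫ q) ?_ hB
  obtain ⟨l, hl⟩ := ce2 hT (𝟙 X - g ≫ s) (by
    rw [Preadditive.sub_comp, Category.id_comp, Category.assoc, hs, Category.comp_id, sub_self])
  have h5 : g ≫ s = 𝟙 X - l ≫ f := by rw [← hl]; abel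
  calc (j ≫ g) ≫ s ≫ q = j ≫ (g ≫ s) ≫ q := by simp only [Category.assoc]
    _ = 𝟙 Z := by
      rw [h5, Preadditive.sub_comp, Category.id_comp, Category.assoc, h2, comp_zero, sub_zero, h1]

/-- Every object is an iterated extension of shifts of Chow motives. -/
lemma tow_all (X : C) : ∃ k, tow (M.AS Set.univ) k X := by
  refine M.generate (fun X => ∃ k, tow (M.AS Set.univ) k X) ?_ ?_ ?_ ?_ ?_ X
  · rintro X Y ⟨e⟩ ⟨k, hk⟩
    exact ⟨k, (tow (M.AS Set.univ) k).prop_of_iso e hk⟩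
  · rintro X ⟨k, hk⟩
    exact ⟨k, tow_shift' 1 (fun X ⟨d, _, hX⟩ => ⟨d + 1, Set.mem_univ _,
      Sh.shift M 1 (d + 1) rfl hX⟩) k X hk⟩
  · rintro X ⟨k, hk⟩
    exact ⟨k, tow_shift' (-1) (fun X ⟨d, _, hX⟩ => ⟨d - 1, Set.mem_univ _,
      Sh.shift M (-1) (d - 1) (by ring) hX⟩) k X hk⟩
  · rintro T hT ⟨a, ha⟩ ⟨b, hb⟩
    exact ⟨a + b, tow_mul _ a b _ ⟨_, _, _, _, _, hT, ha, hb⟩⟩
  · intro X hX
    exact ⟨1, X, _, 𝟙 X, 0, 0, contractible_distinguished X, ⟨0, Set.mem_univ _, Sh.of_chow M hX⟩,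
      isZero_zero C⟩

/-- Towers are bounded. -/
lemma tow_bdd (n : ℕ) : ∀ X : C, tow (M.AS Set.univ) n X →
    ∃ (k : ℕ) (b : ℤ), tow (M.AS (Set.Ioc (b - k) b)) n X := by
  induction n with
  | zero => exact fun X hX => ⟨0, 0, hX⟩
  | succ n ih =>
    rintro X ⟨A, Z, i, q, d, hT, ⟨c, _, hA⟩, hZ⟩
    obtain ⟨k, b, h1⟩ := ih Z hZ
    refine ⟨k + (b - c).natAbs + (c - b).natAbs + 1, b + (c - b).natAbs, A, Z, i, q, d, hT,
      ⟨c, ?_, hA⟩, tow_mono' (AS.mono M ?_) n Z h1⟩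
    · rw [Set.mem_Ioc]; omega
    · intro x hx
      rw [Set.mem_Ioc] at hx ⊢
      omega

lemma srt_of_tow (k : ℕ) : ∀ (b : ℤ) (n : ℕ) (X : C), tow (M.AS (Set.Ioc (b - k) b)) n X →
    M.Srt k b X := by
  induction k with
  | zero =>
    intro b n X hX
    cases n with
    | zero => exact hX
    | succ n =>
      obtain ⟨A, Z, f, g, d, hT, ⟨c, hc, hA⟩, hZ⟩ := hX
      rw [Set.mem_Ioc] at hc
      push_cast at hc
      omega
  | succ k ih =>
    intro b n X hX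
    obtain ⟨c, d, A, Z, f, g, h, hT, hA, hZ⟩ := sort_tow (N := M.AS (Set.Ioc (b - 1 - k) (b - 1)))
      (P := M.AS {b}) (AS.swap M (by
        intro a ha a' ha'
        rw [Set.mem_singleton_iff] at ha
        rw [Set.mem_Ioc] at ha'
        omega)) _ (by
        rintro Y ⟨e, he, hY⟩
        rw [Set.mem_Ioc] at he
        push_cast at he
        by_cases heb : e = b
        · exact Or.inr ⟨e, heb, hY⟩
        · exact Or.inl ⟨e, by rw [Set.mem_Ioc]; omega, hY⟩) n X hX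
    exact ⟨A, Z, f, g, h, hT, ih (b - 1) c A hA, M.tow_sh b d Z hZ⟩

lemma exists_srt (X : C) : ∃ (k : ℕ) (b : ℤ), M.Srt k b X := by
  obtain ⟨n, hn⟩ := M.tow_all X
  obtain ⟨k, b, hk⟩ := M.tow_bdd n X hn
  exact ⟨k, b, M.srt_of_tow k b n X hk⟩

omit [IsTriangulated C] in
lemma sh_le {b : ℤ} {Q : C} (hQ : M.Sh b Q) (m : ℤ) {x : R.V.obj Q} (hx : x ∈ R.gr Q m) :
    x ∈ M.W Q (m + b) := by
  let e : (Q⟦-b⟧)⟦b⟧ ≅ Q := shiftNegShift Q b
  have h1 := M.map_mem e.hom (M.pure_le b m hQ (R.map_mem e.inv hx))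
  have h2 : (R.V.map e.hom).hom ((R.V.map e.inv).hom x) = x := R.ap_iso_inv_hom e x
  rwa [h2] at h1

omit [IsTriangulated C] in
lemma sh_lt {b : ℤ} {Q : C} (hQ : M.Sh b Q) (m : ℤ) {x : R.V.obj Q} (hx : x ∈ R.gr Q m)
    (h : x ∈ M.W Q (m + b - 1)) : x = 0 := by
  let e : (Q⟦-b⟧)⟦b⟧ ≅ Q := shiftNegShift Q b
  have h1 := M.pure_lt' b m hQ (R.map_mem e.inv hx) (M.map_mem e.inv h)
  have h2 : (R.V.map e.hom).hom ((R.V.map e.inv).hom x) = x := R.ap_iso_inv_hom e x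
  rw [← h2, h1, map_zero]

omit [IsTriangulated C] in
/-- The weights of the cohomology of a filtered object. -/
lemma srt_le (k : ℕ) : ∀ (b : ℤ) (X : C), M.Srt k b X → ∀ (m : ℤ) (x : R.V.obj X),
    x ∈ R.gr X m → x ∈ M.W X (m + b) := by
  induction k with
  | zero =>
    intro b X hX m x hx
    rw [R.bot_of_isZero hX m, Submodule.mem_bot] at hx
    rw [hx]
    exact Submodule.zero_mem _
  | succ k ih =>
    rintro b X ⟨A, Z, f, g, h, hT, hA, hZ⟩ m x hx
    obtain ⟨x', hx', h1⟩ := M.strict' g x (M.sh_le hZ m (R.map_mem g hx))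
    have h2 : R.ap g (R.pr X m x') = R.ap g x := by
      rw [← R.pr_natural]
      have h3 : R.ap g x' = R.ap g x := h1
      rw [h3, R.pr_of_mem (R.map_mem g hx)]
    obtain ⟨y, hy, h3⟩ := R.ex2 hT (y := x - R.pr X m x')
      (Submodule.sub_mem _ hx (R.pr_mem X m x')) (by rw [map_sub, h2, sub_self])
    have h4 : x = R.ap f y + R.pr X m x' := by rw [h3]; abel
    rw [h4]
    refine Submodule.add_mem _ (M.mono (show m + (b - 1) ≤ m + b by omega)
      (M.map_mem f (ih (b - 1) A hA m y hy))) (M.graded' m hx')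

omit [IsTriangulated C] in
/-- Splitting for shifts of Chow motives. -/
lemma Splitting.sh (hs : M.Splitting) {b : ℤ} {X Y : C} (hX : M.Sh b X) (hY : M.Sh b Y)
    (f : X ⟶ Y) (hf : ∀ x, R.ap f x = 0 → x = 0) : ∃ g : Y ⟶ X, f ≫ g = 𝟙 X := by
  obtain ⟨K, k, d, hT⟩ := distinguished_cocone_triangle₁ f
  have hk : R.V.map k = 0 := by
    rw [GReal.map_eq_zero_iff]
    intro x
    apply hf
    rw [← GReal.ap_comp, comp12 hT, GReal.ap_zero]
  have hk' := R.map_shift_zero k (-b) hk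
  have hex := R.exact _ (Triangle.shift_distinguished _ hT (-b))
  have hinj : Function.Injective (R.ap (f⟦-b⟧')) := by
    rw [← LinearMap.ker_eq_bot, LinearMap.ker_eq_bot']
    intro x hx
    have h1 : R.ap ((-b).negOnePow • f⟦-b⟧') x = 0 := by
      have h2 : R.ap (f⟦-b⟧') x = 0 := hx
      rcases Int.even_or_odd (-b) with h3 | h3
      · rw [Int.negOnePow_even _ h3, one_smul, h2]
      · rw [Int.negOnePow_odd _ h3, Units.neg_smul, one_smul, GReal.ap_neg, h2, neg_zero]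
    obtain ⟨y, hy⟩ := (hex x).1 h1
    rw [← hy]
    change R.ap ((-b).negOnePow • k⟦-b⟧') y = 0
    have h2 : R.ap (k⟦-b⟧') y = 0 := (R.map_eq_zero_iff _).1 hk' y
    rcases Int.even_or_odd (-b) with h3 | h3
    · rw [Int.negOnePow_even _ h3, one_smul, h2]
    · rw [Int.negOnePow_odd _ h3, Units.neg_smul, one_smul, GReal.ap_neg, h2, neg_zero]
  obtain ⟨g, hg⟩ := hs _ _ hX hY _ hinj
  obtain ⟨g', rfl⟩ := (shiftFunctor C (-b)).map_surjective g
  refine ⟨g', (shiftFunctor C (-b)).map_injective ?_⟩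
  rw [CategoryTheory.Functor.map_comp, hg, CategoryTheory.Functor.map_id]

/-- The splitting property implies conservativity. -/
theorem conservative_of_splitting (hs : M.Splitting) : Conservative R := by
  have key : ∀ (k : ℕ) (b : ℤ) (X : C), M.Srt k b X → (∀ n, R.gr X n = ⊥) → IsZero X := by
    intro k
    induction k with
    | zero => exact fun b X hX _ => hX
    | succ k ih =>
      rintro b X ⟨X', Q, f, g, h, hT, hX', hQ⟩ hX
      cases k with
      | zero =>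
        have hQ0 : ∀ n, R.gr Q n = ⊥ := fun n =>
          R.bot3 hT (hX n) (R.bot_of_isZero hX' (n + 1))
        obtain ⟨r, hr⟩ := Splitting.sh M hs hQ hQ (0 : Q ⟶ Q) (fun x _ => R.eq_zero_of_bot hQ0 x)
        have hQz : IsZero Q := by
          rw [IsZero.iff_id_eq_zero, ← hr, zero_comp]
        exact isZero2 hT hX' hQz
      | succ k =>
        obtain ⟨X'', Q', f', q, h', hT', hX'', hQ'⟩ := hX'
        obtain ⟨a, p, c', hS⟩ : ∃ (a : X''⟦(1 : ℤ)⟧ ⟶ X'⟦(1 : ℤ)⟧) (p : X'⟦(1 : ℤ)⟧ ⟶ Q'⟦(1 : ℤ)⟧)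
            (c' : Q'⟦(1 : ℤ)⟧ ⟶ (X''⟦(1 : ℤ)⟧)⟦(1 : ℤ)⟧), Triangle.mk a p c' ∈ distTriang C :=
          ⟨_, _, _, Triangle.shift_distinguished _ hT' 1⟩
        have hX1 : M.Srt k (b - 1) (X''⟦(1 : ℤ)⟧) := Srt.shift M k 1 _ _ (by ring) _ hX''
        have hQ1 : M.Sh b (Q'⟦(1 : ℤ)⟧) := Sh.shift M 1 b (by ring) hQ'
        have hinj : ∀ x, R.ap h x = 0 → x = 0 := by
          intro x hx
          obtain ⟨y, hy⟩ := (R.exact _ (rotD hT) x).1 hx
          rw [R.eq_zero_of_bot hX y, map_zero] at hy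
          exact hy.symm
        have hc : ∀ x, R.ap (h ≫ p) x = 0 → x = 0 := by
          intro x hx
          apply R.ext_pr
          intro n
          rw [map_zero]
          have h1 : R.ap p (R.ap h (R.pr Q n x)) = 0 := by
            rw [← GReal.ap_comp, ← R.pr_natural, hx, map_zero]
          obtain ⟨y, hy, h2⟩ := R.ex2 hS (R.map_mem h (R.pr_mem Q n x)) h1
          have h3 := M.map_mem a (M.srt_le k (b - 1) _ hX1 n y hy)
          have h4 : (R.V.map a).hom y = (R.V.map h).hom (R.pr Q n x) := h2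
          rw [h4] at h3
          obtain ⟨x', hx', h5⟩ := M.strict' h _ h3
          have h6 : x' = R.pr Q n x := by
            rw [← sub_eq_zero]
            apply hinj
            rw [map_sub, sub_eq_zero]
            exact h5
          rw [h6] at hx'
          exact M.sh_lt hQ n (R.pr_mem Q n x) (by
            have h7 : n + b - 1 = n + (b - 1) := by ring
            rw [h7]; exact hx')
        obtain ⟨r, hr⟩ := Splitting.sh M hs hQ hQ1 (h ≫ p) hc
        obtain ⟨D, jD, qD, h21, h22, h23, h24⟩ := exists_complement _ _ hr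
        have hT2 : Triangle.mk (h ≫ p) qD 0 ∈ distTriang C := split_dist hr h21 h22 h23 h24
        have hO := someOctahedron (rfl : h ≫ p = h ≫ p) (rotD (rotD hT)) (rotD hS) hT2
        have hI := inv_rot_of_distTriang _ hO.mem
        have hX2 : M.Srt (k + 1) b (X⟦(1 : ℤ)⟧) := by
          refine ⟨((X''⟦(1 : ℤ)⟧)⟦(1 : ℤ)⟧)⟦(-1 : ℤ)⟧, D, _, _, _, hI, ?_, Sh.retract M jD qD h21 hQ1⟩
          exact (M.Srt k (b - 1)).prop_of_iso
            ((shiftFunctorCompIsoId C (1 : ℤ) (-1) (by ring)).app (X''⟦(1 : ℤ)⟧)).symm hX1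
        have h8 := ih b _ hX2 (fun n => R.bot_shift_one (hX (n + 1)))
        exact IsZero.of_iso ((shiftFunctor C (-1 : ℤ)).map_isZero h8)
          ((shiftFunctorCompIsoId C (1 : ℤ) (-1) (by ring)).app X).symm
  intro X hX
  obtain ⟨k, b, hk⟩ := M.exists_srt X
  exact key k b X hk hX

end Weights

end Pool.Agent.R593.Cv
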